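import Mathlib

set_option autoImplicit false

namespace Pool.Agent.Results.MP_9bfa98_an.Unbounded

open Filter Topology Complex Set

/-- Nevanlinna function: meromorphic on the plane, preserving both open half-planes. -/
def IsNevanlinna (m : ℂ → ℂ) : Prop :=
  MeromorphicOn m univ ∧ (∀ z : ℂ, 0 < z.im → 0 < (m z).im) ∧ ∀ z : ℂ, z.im < 0 → (m z).im < 0

/-- number of zeros in `U`, with multiplicity -/
noncomputable def zeros (f : ℂ → ℂ) (U : Set ℂ) : ℕ :=
  ∑ᶠ z ∈ U, (meromorphicOrderAt f z).untop₀.toNat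

/-- number of poles in `U`, with multiplicity -/
noncomputable def poles (f : ℂ → ℂ) (U : Set ℂ) : ℕ :=
  ∑ᶠ z ∈ U, (-(meromorphicOrderAt f z).untop₀).toNat

noncomputable def m (j : ℕ) (z : ℂ) : ℂ := tan ((j + 1) * z)

lemma tan_im (w : ℂ) :
    (tan w).im = Real.sinh w.im * Real.cosh w.im / normSq (cos w) := by
  rw [tan_eq_sin_div_cos, div_im, ← sub_div]
  congr 1
  rw [sin_eq w, cos_eq w, ← ofReal_sin w.re, ← ofReal_cos w.re, ← ofReal_sinh w.im,
    ← ofReal_cosh w.im]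
  simp only [add_im, add_re, sub_im, sub_re, mul_im, mul_re, ofReal_re, ofReal_im, I_re, I_im]
  linear_combination (Real.sinh w.im * Real.cosh w.im) * Real.sin_sq_add_cos_sq w.re

lemma cos_ne {w : ℂ} (h : w.im ≠ 0) : cos w ≠ 0 := fun h0 => by
  obtain ⟨k, hk⟩ := Complex.cos_eq_zero_iff.mp h0
  apply h
  have : w = (((2 * k + 1) * Real.pi / 2 : ℝ) : ℂ) := by rw [hk]; push_cast; ring
  rw [this, ofReal_im]

lemma an_cos (j : ℕ) (z : ℂ) : AnalyticAt ℂ (fun z : ℂ => cos ((j + 1) * z)) z := by fun_prop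

lemma an_sin (j : ℕ) (z : ℂ) : AnalyticAt ℂ (fun z : ℂ => sin ((j + 1) * z)) z := by fun_prop

lemma nev (j : ℕ) : IsNevanlinna (m j) := by
  have him : ∀ z : ℂ, (((j : ℂ) + 1) * z).im = (j + 1) * z.im := fun z => by simp
  have hj : (0 : ℝ) < j + 1 := by positivity
  refine ⟨fun z _ => (an_sin j z).meromorphicAt.div (an_cos j z).meromorphicAt,
    fun z hz => ?_, fun z hz => ?_⟩
  · unfold m
    have h : 0 < (((j : ℂ) + 1) * z).im := by rw [him]; positivity
    rw [tan_im]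
    exact div_pos (mul_pos (Real.sinh_pos_iff.mpr h) (Real.cosh_pos _))
      (normSq_pos.mpr (cos_ne h.ne'))
  · unfold m
    have h : (((j : ℂ) + 1) * z).im < 0 := by rw [him]; exact mul_neg_of_pos_of_neg hj hz
    rw [tan_im]
    exact div_neg_of_neg_of_pos (mul_neg_of_neg_of_pos (Real.sinh_neg_iff.mpr h) (Real.cosh_pos _))
      (normSq_pos.mpr (cos_ne h.ne))

open Classical in
lemma ord_cos (j : ℕ) (z : ℂ) : meromorphicOrderAt (fun z : ℂ => cos ((j + 1) * z)) z =
    if cos ((j + 1) * z) = 0 then 1 else 0 := by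
  rw [(an_cos j z).meromorphicOrderAt_eq]
  split_ifs with h
  · have hd : HasDerivAt (fun z : ℂ => cos ((j + 1) * z)) (-sin ((j + 1) * z) * (j + 1)) z := by
      simpa using ((hasDerivAt_id z).const_mul ((j : ℂ) + 1)).ccos
    have hs : sin ((j + 1) * z) ≠ 0 := fun h0 => by
      have := sin_sq_add_cos_sq (((j : ℂ) + 1) * z)
      rw [h, h0] at this; simp at this
    rw [(an_cos j z).analyticOrderAt_eq_one_of_zero_deriv_ne_zero h (by
      rw [hd.deriv]; exact mul_ne_zero (neg_ne_zero.mpr hs) (Nat.cast_add_one_ne_zero j))]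
    rfl
  · rw [(an_cos j z).analyticOrderAt_eq_zero.mpr h]; rfl

lemma ord_ne {f : ℂ → ℂ} {z : ℂ} (hf : AnalyticAt ℂ f z) (h : f z ≠ 0) :
    meromorphicOrderAt f z = 0 := by
  rw [hf.meromorphicOrderAt_eq, hf.analyticOrderAt_eq_zero.mpr h]; rfl

lemma zeros_eq (j : ℕ) (U : Set ℂ) : zeros (fun z => m j z - I) U = 0 := by
  have key : ∀ z, (meromorphicOrderAt (fun z => m j z - I) z).untop₀.toNat = 0 := fun z => by
    have hne : ∀ᶠ w in 𝓝[≠] z, cos ((j + 1) * w) ≠ 0 :=
      (meromorphicOrderAt_ne_top_iff_eventually_ne_zero (an_cos j z).meromorphicAt).mp (by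
        rw [ord_cos]; split_ifs <;> simp)
    have ha : AnalyticAt ℂ (fun w : ℂ => -I * cexp ((j + 1) * w * I)) z := by fun_prop
    have e : (fun z => m j z - I) =ᶠ[𝓝[≠] z]
        (fun w : ℂ => -I * cexp ((j + 1) * w * I)) / fun w : ℂ => cos ((j + 1) * w) := by
      filter_upwards [hne] with w hw
      simp only [m, Pi.div_apply, exp_mul_I, tan_eq_sin_div_cos]
      field_simp
      linear_combination (sin (((j : ℂ) + 1) * w)) * I_mul_I
    rw [meromorphicOrderAt_congr e, meromorphicOrderAt_div ha.meromorphicAt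
      (an_cos j z).meromorphicAt, ord_ne ha (mul_ne_zero (neg_ne_zero.mpr I_ne_zero)
        (exp_ne_zero _)), ord_cos]
    split_ifs <;> rfl
  unfold zeros
  simp [key]

open Classical in
lemma pole_eq (j : ℕ) (z : ℂ) : (-(meromorphicOrderAt (m j) z).untop₀).toNat =
    if cos ((j + 1) * z) = 0 then 1 else 0 := by
  have e : m j = (fun w : ℂ => sin ((j + 1) * w)) / fun w : ℂ => cos ((j + 1) * w) := rfl
  split_ifs with h
  · have hs : sin ((j + 1) * z) ≠ 0 := fun h0 => by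
      have := sin_sq_add_cos_sq (((j : ℂ) + 1) * z)
      rw [h, h0] at this; simp at this
    rw [e, meromorphicOrderAt_div (an_sin j z).meromorphicAt (an_cos j z).meromorphicAt,
      ord_ne (an_sin j z) hs, ord_cos, if_pos h]
    rfl
  · have ha : AnalyticAt ℂ (m j) z := (an_sin j z).div (an_cos j z) h
    have h0 := ha.meromorphicOrderAt_nonneg
    have := WithTop.untop₀_nonneg.mpr h0
    omega

noncomputable def pt (j : ℕ) (k : ℤ) : ℝ := (2 * k + 1) * Real.pi / 2 / (j + 1)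

lemma cos_iff (j : ℕ) (z : ℂ) : cos ((j + 1) * z) = 0 ↔ ∃ k : ℤ, z = pt j k := by
  have hj : (j : ℂ) + 1 ≠ 0 := Nat.cast_add_one_ne_zero j
  rw [Complex.cos_eq_zero_iff]
  refine exists_congr fun k => ?_
  unfold pt; push_cast
  rw [eq_div_iff hj, mul_comm]

lemma fin_poles (j : ℕ) {U : Set ℂ} (hU : Bornology.IsBounded U) :
    {z ∈ U | cos ((j + 1) * z) = 0}.Finite := by
  obtain ⟨R, hR⟩ := hU.exists_norm_le
  obtain ⟨N, hN⟩ := exists_nat_gt (R * (j + 1))
  refine ((finite_Icc (-(N : ℤ)) N).image fun k => ((pt j k : ℝ) : ℂ)).subset ?_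
  rintro z ⟨hz, hc⟩
  obtain ⟨k, rfl⟩ := (cos_iff j z).mp hc
  refine ⟨k, ?_, rfl⟩
  have h1 := hR _ hz
  rw [norm_real, Real.norm_eq_abs, abs_le] at h1
  unfold pt at h1
  have hj : (0 : ℝ) < j + 1 := by positivity
  rw [le_div_iff₀ hj, div_le_iff₀ hj] at h1
  have hpi := Real.pi_gt_three
  constructor
  · have : -(N : ℝ) ≤ k := by
      by_contra hc
      push Not at hc
      have : (k : ℝ) + 1 ≤ -N := by exact_mod_cast (show k + 1 ≤ -(N : ℤ) by exact_mod_cast hc)
      nlinarith [Nat.cast_nonneg (α := ℝ) N]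
    exact_mod_cast this
  · have : (k : ℝ) ≤ N := by
      by_contra hc
      push Not at hc
      nlinarith [Nat.cast_nonneg (α := ℝ) N]
    exact_mod_cast this

lemma poles_eq (j : ℕ) {U : Set ℂ} (hU : Bornology.IsBounded U) :
    poles (m j) U = {z ∈ U | cos ((j + 1) * z) = 0}.ncard := by
  classical
  unfold poles
  simp only [pole_eq]
  rw [finsum_mem_eq_sum_of_inter_support_eq _ (t := (fin_poles j hU).toFinset)]
  · rw [ncard_eq_toFinset_card _ (fin_poles j hU), Finset.card_eq_sum_ones]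
    exact Finset.sum_congr rfl fun z hz => if_pos ((fin_poles j hU).mem_toFinset.mp hz).2
  · ext z; simp

lemma poles_tendsto {a b : ℝ} (hab : a < b) {U : Set ℂ} (hU : Bornology.IsBounded U)
    (hJ : ∀ x ∈ Ioo a b, (x : ℂ) ∈ U) : Tendsto (fun j => poles (m j) U) atTop atTop := by
  refine tendsto_atTop.mpr fun n => ?_
  have hpi := Real.pi_pos
  obtain ⟨N, hN⟩ := exists_nat_gt ((n + 2) * Real.pi / (b - a))
  rw [div_lt_iff₀ (by linarith)] at hN
  filter_upwards [eventually_ge_atTop N] with j hj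
  have hj' : (N : ℝ) ≤ j := by exact_mod_cast hj
  have hj0 : (0 : ℝ) < j + 1 := by positivity
  set k0 : ℤ := ⌈a * (j + 1) / Real.pi⌉ with hk0
  have h1 : a * (j + 1) / Real.pi ≤ k0 := Int.le_ceil _
  have h2 : (k0 : ℝ) < a * (j + 1) / Real.pi + 1 := Int.ceil_lt_add_one _
  rw [div_le_iff₀ hpi] at h1
  rw [div_add_one hpi.ne', lt_div_iff₀ hpi] at h2
  rw [poles_eq j hU]
  have hinj : Function.Injective fun i : Fin n => ((pt j (k0 + (i : ℕ)) : ℝ) : ℂ) := by
    intro i i' h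
    have h3 : pt j (k0 + (i : ℕ)) = pt j (k0 + (i' : ℕ)) := ofReal_injective h
    unfold pt at h3
    field_simp at h3
    push_cast at h3
    exact Fin.ext (by exact_mod_cast (show ((i : ℕ) : ℝ) = (i' : ℕ) by linarith))
  have := ncard_le_ncard (s := range fun i : Fin n => ((pt j (k0 + (i : ℕ)) : ℝ) : ℂ)) ?_
    (fin_poles j hU)
  · rwa [ncard_range_of_injective hinj, Nat.card_eq_fintype_card, Fintype.card_fin] at this
  · rintro _ ⟨i, rfl⟩
    refine ⟨hJ _ ⟨?_, ?_⟩, (cos_iff j _).mpr ⟨_, rfl⟩⟩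
    · unfold pt; rw [lt_div_iff₀ hj0]; push_cast
      nlinarith [Nat.cast_nonneg (α := ℝ) (i : ℕ)]
    · unfold pt; rw [div_lt_iff₀ hj0]; push_cast
      have : ((i : ℕ) : ℝ) < n := by exact_mod_cast i.2
      nlinarith

/-- `m j = tan ((j+1) z)`, `g = i`: the difference of the two counts tends to infinity. -/
theorem result : ∃ (m : ℕ → ℂ → ℂ) (g : ℂ → ℂ), (∀ j, IsNevanlinna (m j)) ∧
    Differentiable ℂ g ∧
    (∀ a b : ℝ, a < b →
      Tendsto (fun j => poles (m j) ((fun x : ℝ => (x : ℂ)) '' Ioo a b)) atTop atTop) ∧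
    ∀ a b : ℝ, a < b → ∀ U : Set ℂ, Bornology.IsBounded U → (∀ x ∈ Ioo a b, (x : ℂ) ∈ U) →
      Tendsto (fun j => |(zeros (fun z => m j z - g z) U : ℤ) - poles (m j) U|) atTop atTop := by
  refine ⟨m, fun _ => I, nev, differentiable_const _, fun a b hab => ?_, fun a b hab U hU hJ => ?_⟩
  · refine poles_tendsto hab ?_ fun x hx => ⟨x, hx, rfl⟩
    exact isometry_ofReal.lipschitz.isBounded_image (Metric.isBounded_Ioo a b)
  · simp only [zeros_eq, Nat.cast_zero, zero_sub, abs_neg, Nat.abs_cast]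
    exact tendsto_natCast_atTop_atTop.comp (poles_tendsto hab hU hJ)

end Pool.Agent.Results.MP_9bfa98_an.Unbounded
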